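import Mathlib

set_option autoImplicit false

namespace Pool.Agent.TH232.KSC

/-- The number of linear extensions `f` of `α` with `f p.1 < f p.2` for every pair `p` of the list `C`. -/
noncomputable def ext (α : Type) [Fintype α] [PartialOrder α] (C : List (α × α)) : ℕ :=
  {f : α ≃ Fin (Fintype.card α) |
    StrictMono (f : α → Fin (Fintype.card α)) ∧ ∀ p ∈ C, f p.1 < f p.2}.ncard

/-- A strategy of `k` further comparisons after the answers in `C`, such that each answer multiplies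
the number `e` of compatible linear extensions by at most `ρ`. -/
def Strategy {α : Type} (e : List (α × α) → ℕ) (ρ : ℝ) : ℕ → List (α × α) → Prop
  | 0, _ => True
  | k + 1, C => ∃ a b : α, a ≠ b ∧
      ((e ((a, b) :: C) : ℝ) ≤ ρ * e C ∧ Strategy e ρ k ((a, b) :: C)) ∧
      ((e ((b, a) :: C) : ℝ) ≤ ρ * e C ∧ Strategy e ρ k ((b, a) :: C))

/-- The Kahn–Saks statement (as in the frozen statement). -/
def KS : Prop :=
    ∀ ε : ℝ, 0 < ε → ∃ W : ℕ, ∀ (α : Type) [Fintype α] [PartialOrder α],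
      (∃ s : Finset α, IsAntichain (· ≤ ·) (↑s : Set α) ∧ W ≤ s.card) →
      ∃ x y : α,
        (1 / 2 - ε) * ((Nat.card {σ : α ≃ Fin (Fintype.card α) // StrictMono ⇑σ} : ℕ) : ℝ)
          ≤ ((Nat.card {σ : α ≃ Fin (Fintype.card α) // StrictMono ⇑σ ∧ σ x < σ y} : ℕ) : ℝ) ∧
        (1 / 2 - ε) * ((Nat.card {σ : α ≃ Fin (Fintype.card α) // StrictMono ⇑σ} : ℕ) : ℝ)
          ≤ ((Nat.card {σ : α ≃ Fin (Fintype.card α) // StrictMono ⇑σ ∧ σ y < σ x} : ℕ) : ℝ)

/-- `α` with the relation `u < v` added. -/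
def Added {α : Type} [PartialOrder α] (u v : α) (_ : ¬ v ≤ u) : Type := α

variable {α : Type} [Fintype α] [PartialOrder α]

instance (u v : α) (h : ¬ v ≤ u) : Fintype (Added u v h) := inferInstanceAs (Fintype α)

omit [Fintype α] in
theorem added_aux (u v : α) (h : ¬ v ≤ u) :
    (∀ x : α, x ≤ x ∨ (x ≤ u ∧ v ≤ x)) ∧
    (∀ x y z : α, (x ≤ y ∨ (x ≤ u ∧ v ≤ y)) → (y ≤ z ∨ (y ≤ u ∧ v ≤ z)) → (x ≤ z ∨ (x ≤ u ∧ v ≤ z))) ∧
    (∀ x y : α, (x ≤ y ∨ (x ≤ u ∧ v ≤ y)) → (y ≤ x ∨ (y ≤ u ∧ v ≤ x)) → x = y) := by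
  refine ⟨fun x => Or.inl le_rfl, ?_, ?_⟩
  · rintro x y z (h1 | ⟨h1, h1'⟩) (h2 | ⟨h2, h2'⟩)
    · exact Or.inl (h1.trans h2)
    · exact Or.inr ⟨h1.trans h2, h2'⟩
    · exact Or.inr ⟨h1, h1'.trans h2⟩
    · exact Or.inr ⟨h1, h2'⟩
  · rintro x y (h1 | ⟨h1, h1'⟩) (h2 | ⟨h2, h2'⟩)
    · exact le_antisymm h1 h2
    · exact absurd (h2'.trans (h1.trans h2)) h
    · exact absurd (h1'.trans (h2.trans h1)) h
    · exact absurd (h1'.trans h2) h

instance addedOrder (u v : α) (h : ¬ v ≤ u) : PartialOrder (Added u v h) where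
  le x y := (show α from x) ≤ (show α from y) ∨ ((show α from x) ≤ u ∧ v ≤ (show α from y))
  le_refl x := (added_aux u v h).1 x
  le_trans x y z := (added_aux u v h).2.1 x y z
  le_antisymm x y := (added_aux u v h).2.2 x y

omit [Fintype α] in
theorem added_le {u v : α} {h : ¬ v ≤ u} (x y : α) :
    ((show Added u v h from x) ≤ (show Added u v h from y)) ↔ (x ≤ y ∨ (x ≤ u ∧ v ≤ y)) := Iff.rfl

omit [Fintype α] in
theorem strictMono_of_inj {β : Type} [PartialOrder β] {N : ℕ} (f : β ≃ Fin N) :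
    StrictMono f ↔ ∀ x y, x ≤ y → f x ≤ f y := by
  constructor
  · intro hf x y hxy
    exact hf.monotone hxy
  · intro hf x y hxy
    refine lt_of_le_of_ne (hf x y hxy.le) ?_
    intro he
    exact hxy.ne (f.injective he)

/-- the same bijection, on the type with the added relation -/
def cast {N : ℕ} (u v : α) (h : ¬ v ≤ u) (f : α ≃ Fin N) : Added u v h ≃ Fin N := f

omit [Fintype α] in
theorem strictMono_added {N : ℕ} (u v : α) (h : ¬ v ≤ u) (f : α ≃ Fin N) :
    StrictMono (cast u v h f) ↔ (StrictMono f ∧ f u < f v) := by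
  rw [strictMono_of_inj, strictMono_of_inj]
  constructor
  · intro hf
    refine ⟨fun x y hxy => hf x y (Or.inl hxy), ?_⟩
    refine lt_of_le_of_ne (hf u v (Or.inr ⟨le_rfl, le_rfl⟩)) ?_
    intro he
    have := f.injective he
    exact h this.ge
  · rintro ⟨hf, huv⟩ x y (hxy | ⟨hx, hy⟩)
    · exact hf x y hxy
    · exact ((hf x u hx).trans huv.le).trans (hf v y hy)

theorem ext_added (u v : α) (h : ¬ v ≤ u) (C : List (α × α)) :
    ext (Added u v h) C = ext α (C ++ [(u, v)]) := by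
  unfold ext
  have key : {f : Added u v h ≃ Fin (Fintype.card (Added u v h)) | StrictMono f ∧
      ∀ p ∈ (show List (Added u v h × Added u v h) from C), f p.1 < f p.2} =
      (cast u v h) '' {f : α ≃ Fin (Fintype.card α) |
        StrictMono (f : α → Fin (Fintype.card α)) ∧ ∀ p ∈ C ++ [(u, v)], f p.1 < f p.2} := by
    ext f
    constructor
    · rintro ⟨hf, hC⟩
      have h1 := (strictMono_added u v h (show α ≃ Fin (Fintype.card α) from f)).1 hf
      refine ⟨f, ⟨h1.1, ?_⟩, rfl⟩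
      intro p hp
      rcases List.mem_append.1 hp with hp | hp
      · exact hC p hp
      · rw [List.mem_singleton.1 hp]
        exact h1.2
    · rintro ⟨g, ⟨hg, hC⟩, rfl⟩
      refine ⟨(strictMono_added u v h g).2 ⟨hg, hC (u, v) (by simp)⟩, ?_⟩
      intro p hp
      exact hC p (List.mem_append.2 (Or.inl hp))
  refine (congrArg Set.ncard key).trans (Set.ncard_image_of_injective _ ?_)
  intro f g hfg
  exact hfg

omit [Fintype α] in
/-- Adding one relation keeps at least half of an antichain. -/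
theorem antichain_added (u v : α) (h : ¬ v ≤ u) (s : Finset α)
    (hs : IsAntichain (· ≤ ·) (↑s : Set α)) (W : ℕ) (hW : 2 * W ≤ s.card) :
    ∃ t : Finset (Added u v h), IsAntichain (· ≤ ·) (↑t : Set (Added u v h)) ∧ W ≤ t.card := by
  classical
  set D : Finset α := s.filter (fun a => a ≤ u) with hD
  set U : Finset α := s.filter (fun a => v ≤ a) with hU
  have hdisj : Disjoint D U := by
    rw [Finset.disjoint_left]
    intro a ha ha'
    exact h ((Finset.mem_filter.1 ha').2.trans (Finset.mem_filter.1 ha).2)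
  have hcard : D.card + U.card ≤ s.card := by
    rw [← Finset.card_union_of_disjoint hdisj]
    exact Finset.card_le_card (Finset.union_subset (Finset.filter_subset _ _) (Finset.filter_subset _ _))
  have hsD : (s \ D).card = s.card - D.card := Finset.card_sdiff_of_subset (Finset.filter_subset _ _)
  have hsU : (s \ U).card = s.card - U.card := Finset.card_sdiff_of_subset (Finset.filter_subset _ _)
  by_cases hc : D.card ≤ U.card
  · refine ⟨s \ D, ?_, ?_⟩
    · intro x hx y hy hxy hle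
      have hx1 := Finset.mem_sdiff.1 (Finset.mem_coe.1 hx)
      have hy1 := Finset.mem_sdiff.1 (Finset.mem_coe.1 hy)
      rcases hle with hle | ⟨hle, -⟩
      · exact hs hx1.1 hy1.1 hxy hle
      · exact hx1.2 (Finset.mem_filter.2 ⟨hx1.1, hle⟩)
    · show W ≤ (s \ D).card
      omega
  · refine ⟨s \ U, ?_, ?_⟩
    · intro x hx y hy hxy hle
      have hx1 := Finset.mem_sdiff.1 (Finset.mem_coe.1 hx)
      have hy1 := Finset.mem_sdiff.1 (Finset.mem_coe.1 hy)
      rcases hle with hle | ⟨-, hle⟩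
      · exact hs hx1.1 hy1.1 hxy hle
      · have hyU : (show α from y) ∈ U := by
          rw [hU, Finset.mem_filter]
          exact ⟨hy1.1, hle⟩
        exact hy1.2 hyU
    · show W ≤ (s \ U).card
      omega

theorem ext_nil : ((Nat.card {σ : α ≃ Fin (Fintype.card α) // StrictMono ⇑σ} : ℕ)) = ext α [] := by
  unfold ext
  simp only [List.not_mem_nil, false_imp_iff, implies_true, and_true]
  exact Nat.card_coe_set_eq {σ : α ≃ Fin (Fintype.card α) | StrictMono ⇑σ}

theorem ext_one (x y : α) : (Nat.card {σ : α ≃ Fin (Fintype.card α) // StrictMono ⇑σ ∧ σ x < σ y}) =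
    ext α [(x, y)] := by
  unfold ext
  simp only [List.mem_singleton, forall_eq]
  exact Nat.card_coe_set_eq {σ : α ≃ Fin (Fintype.card α) | StrictMono ⇑σ ∧ σ x < σ y}

theorem ext_pos : 0 < ext α [] := by
  rw [← ext_nil]
  have : Nonempty {σ : α ≃ Fin (Fintype.card α) // StrictMono ⇑σ} := by
    letI i1 : Fintype (LinearExtension α) := (inferInstance : Fintype α)
    have hc : Fintype.card (LinearExtension α) = Fintype.card α := rfl
    let g : Fin (Fintype.card α) ≃o LinearExtension α :=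
      Fintype.orderIsoFinOfCardEq (LinearExtension α) hc
    let f : α ≃ Fin (Fintype.card α) := g.symm.toEquiv
    refine ⟨⟨f, (strictMono_of_inj f).2 ?_⟩⟩
    intro x y hxy
    exact g.symm.monotone (toLinearExtension.monotone hxy)
  exact Nat.card_pos

theorem ext_split (a b : α) (hab : a ≠ b) (C : List (α × α)) :
    ext α ((a, b) :: C) + ext α ((b, a) :: C) = ext α C := by
  unfold ext
  rw [← Set.ncard_union_eq]
  · congr 1
    ext f
    simp only [List.mem_cons, forall_eq_or_imp, Set.mem_union, Set.mem_ofPred_eq]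
    constructor
    · rintro (⟨h1, -, h2⟩ | ⟨h1, -, h2⟩)
      · exact ⟨h1, h2⟩
      · exact ⟨h1, h2⟩
    · rintro ⟨h1, h2⟩
      rcases lt_or_gt_of_ne (fun h => hab (f.injective h)) with h | h
      · exact Or.inl ⟨h1, h, h2⟩
      · exact Or.inr ⟨h1, h, h2⟩
  · rw [Set.disjoint_left]
    rintro f ⟨-, h1⟩ ⟨-, h2⟩
    exact lt_asymm (h1 _ (List.mem_cons_self)) (h2 _ (List.mem_cons_self))

theorem strategy_added (u v : α) (h : ¬ v ≤ u) (ρ : ℝ) (k : ℕ) : ∀ C : List (α × α),
    Strategy (ext (Added u v h)) ρ k C → Strategy (ext α) ρ k (C ++ [(u, v)]) := by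
  induction k with
  | zero => intro C _; trivial
  | succ k ih =>
    rintro C ⟨a, b, hab, ⟨h1, h2⟩, ⟨h3, h4⟩⟩
    refine ⟨a, b, hab, ⟨?_, ih _ h2⟩, ⟨?_, ih _ h4⟩⟩
    · have e1 := ext_added u v h ((a, b) :: C)
      have e2 := ext_added u v h C
      rw [List.cons_append] at e1
      rw [← e1, ← e2]
      exact h1
    · have e1 := ext_added u v h ((b, a) :: C)
      have e2 := ext_added u v h C
      rw [List.cons_append] at e1
      rw [← e1, ← e2]
      exact h3

theorem ks_pair (hKS : KS) (ε : ℝ) (hε : 0 < ε) (hε2 : ε < 1 / 2) :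
    ∃ W : ℕ, ∀ (α : Type) [Fintype α] [PartialOrder α],
      (∃ s : Finset α, IsAntichain (· ≤ ·) (↑s : Set α) ∧ W ≤ s.card) →
      ∃ x y : α, ¬ x ≤ y ∧ ¬ y ≤ x ∧ (ext α [(x, y)] : ℝ) ≤ (1 / 2 + ε) * ext α [] ∧
        (ext α [(y, x)] : ℝ) ≤ (1 / 2 + ε) * ext α [] := by
  obtain ⟨W, hW⟩ := hKS ε hε
  refine ⟨W, ?_⟩
  intro α _ _ hs
  obtain ⟨x, y, h1, h2⟩ := hW α hs
  rw [ext_nil, ext_one] at h1 h2
  have hpos : (0 : ℝ) < ext α [] := by exact_mod_cast ext_pos (α := α)
  have hc : 0 < (1 / 2 - ε) * (ext α [] : ℝ) := mul_pos (by linarith) hpos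
  have hx : 0 < ext α [(x, y)] := by
    have : (0 : ℝ) < ext α [(x, y)] := lt_of_lt_of_le hc h1
    exact_mod_cast this
  have hy : 0 < ext α [(y, x)] := by
    have : (0 : ℝ) < ext α [(y, x)] := lt_of_lt_of_le hc h2
    exact_mod_cast this
  have key : ∀ u v : α, 0 < ext α [(u, v)] → ¬ v ≤ u := by
    intro u v huv hvu
    obtain ⟨f, hf, hC⟩ := Set.nonempty_of_ncard_ne_zero huv.ne'
    have h3 := hC (u, v) (by simp)
    exact absurd h3 (not_lt.2 (hf.monotone hvu))
  have hne : x ≠ y := by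
    rintro rfl
    exact key x x hx le_rfl
  have hsum := ext_split x y hne []
  have hsum' : (ext α [(x, y)] : ℝ) + ext α [(y, x)] = ext α [] := by exact_mod_cast hsum
  refine ⟨x, y, key y x hy, key x y hx, ?_, ?_⟩
  · nlinarith
  · nlinarith

theorem strategy_exists (hKS : KS) (ε : ℝ) (hε : 0 < ε) (hε2 : ε < 1 / 2) (k : ℕ) :
    ∃ W : ℕ, ∀ (α : Type) [Fintype α] [PartialOrder α],
      (∃ s : Finset α, IsAntichain (· ≤ ·) (↑s : Set α) ∧ W ≤ s.card) →
      Strategy (ext α) (1 / 2 + ε) k [] := by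
  induction k with
  | zero => exact ⟨0, fun α _ _ _ => trivial⟩
  | succ k ih =>
    obtain ⟨W₁, hW₁⟩ := ih
    obtain ⟨W₂, hW₂⟩ := ks_pair hKS ε hε hε2
    refine ⟨max W₂ (2 * W₁), ?_⟩
    rintro α _ _ ⟨s, hs, hsW⟩
    obtain ⟨x, y, hxy, hyx, h1, h2⟩ := hW₂ α ⟨s, hs, (le_max_left _ _).trans hsW⟩
    have h2W : 2 * W₁ ≤ s.card := (le_max_right _ _).trans hsW
    have hne : x ≠ y := by
      rintro rfl
      exact hxy le_rfl
    refine ⟨x, y, hne, ⟨h1, ?_⟩, ⟨h2, ?_⟩⟩
    · exact strategy_added x y hyx _ k [] (hW₁ (Added x y hyx) (antichain_added x y hyx s hs W₁ h2W))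
    · exact strategy_added y x hxy _ k [] (hW₁ (Added y x hxy) (antichain_added y x hxy s hs W₁ h2W))

/-- The golden partition statement for one poset, with the constant `c` in place of `1`. -/
def Golden (c : ℝ) (α : Type) [Fintype α] [PartialOrder α] : Prop :=
    ∃ a b : α, ¬ a ≤ b ∧ ¬ b ≤ a ∧
      ∀ u v : α, ((u = a ∧ v = b) ∨ (u = b ∧ v = a)) →
        ∃ c' d : α, c' ≠ d ∧
          ∀ w z : α, ((w = c' ∧ z = d) ∨ (w = d ∧ z = c')) →
            (({f : α ≃ Fin (Fintype.card α) |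
                StrictMono (f : α → Fin (Fintype.card α)) ∧ f u < f v}.ncard : ℕ) : ℝ)
              + (({f : α ≃ Fin (Fintype.card α) |
                StrictMono (f : α → Fin (Fintype.card α)) ∧ f u < f v ∧ f w < f z}.ncard : ℕ) : ℝ)
              ≤ c * (({f : α ≃ Fin (Fintype.card α) |
                StrictMono (f : α → Fin (Fintype.card α))}.ncard : ℕ) : ℝ)

theorem ext_one' (x y : α) : ({f : α ≃ Fin (Fintype.card α) |
                StrictMono (f : α → Fin (Fintype.card α)) ∧ f x < f y}.ncard) = ext α [(x, y)] := by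
  unfold ext
  simp

theorem ext_two' (x y z w : α) : ({f : α ≃ Fin (Fintype.card α) |
                StrictMono (f : α → Fin (Fintype.card α)) ∧ f x < f y ∧ f z < f w}.ncard) =
    ext α [(z, w), (x, y)] := by
  unfold ext
  congr 1
  ext f
  simp only [List.mem_cons, forall_eq_or_imp, Set.mem_ofPred_eq, List.not_mem_nil]
  tauto

theorem ext_zero' : ({f : α ≃ Fin (Fintype.card α) |
                StrictMono (f : α → Fin (Fintype.card α))}.ncard) = ext α [] := by
  unfold ext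
  simp

theorem golden_of_strategy {ε : ℝ} (hε : 0 < ε) (hε2 : ε < 1 / 2)
    (h : Strategy (ext α) (1 / 2 + ε) 2 []) : Golden (3 / 4 + 3 * ε) α := by
  obtain ⟨a, b, hab, ⟨h1, c1, d1, hcd1, ⟨h2, -⟩, ⟨h3, -⟩⟩, ⟨h4, c2, d2, hcd2, ⟨h5, -⟩, ⟨h6, -⟩⟩⟩ := h
  have hpos : (0 : ℝ) < ext α [] := by exact_mod_cast ext_pos (α := α)
  have hsum := ext_split a b hab []
  have hsum' : (ext α [(a, b)] : ℝ) + ext α [(b, a)] = ext α [] := by exact_mod_cast hsum
  have hx : 0 < ext α [(a, b)] := by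
    have : (0 : ℝ) < ext α [(a, b)] := by nlinarith
    exact_mod_cast this
  have hy : 0 < ext α [(b, a)] := by
    have : (0 : ℝ) < ext α [(b, a)] := by nlinarith
    exact_mod_cast this
  have key : ∀ u v : α, 0 < ext α [(u, v)] → ¬ v ≤ u := by
    intro u v huv hvu
    obtain ⟨f, hf, hC⟩ := Set.nonempty_of_ncard_ne_zero huv.ne'
    have h3 := hC (u, v) (by simp)
    exact absurd h3 (not_lt.2 (hf.monotone hvu))
  have fin : ∀ A B : ℝ, A ≤ (1 / 2 + ε) * ext α [] → B ≤ (1 / 2 + ε) * A →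
      A + B ≤ (3 / 4 + 3 * ε) * ext α [] := by
    intro A B hA hB
    have h8 : B ≤ (1 / 2 + ε) * ((1 / 2 + ε) * ext α []) :=
      hB.trans (mul_le_mul_of_nonneg_left hA (by linarith))
    nlinarith
  refine ⟨a, b, key b a hy, key a b hx, ?_⟩
  rintro u v (⟨rfl, rfl⟩ | ⟨rfl, rfl⟩)
  · refine ⟨c1, d1, hcd1, ?_⟩
    rintro w z (⟨rfl, rfl⟩ | ⟨rfl, rfl⟩)
    · rw [ext_one', ext_two', ext_zero']
      exact fin _ _ h1 h2
    · rw [ext_one', ext_two', ext_zero']
      exact fin _ _ h1 h3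
  · refine ⟨c2, d2, hcd2, ?_⟩
    rintro w z (⟨rfl, rfl⟩ | ⟨rfl, rfl⟩)
    · rw [ext_one', ext_two', ext_zero']
      exact fin _ _ h4 h5
    · rw [ext_one', ext_two', ext_zero']
      exact fin _ _ h4 h6

end Pool.Agent.TH232.KSC
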